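import Pool.Agent.R545.Tg.Main

/-!
# An undirected temporal graph without a directed simple realisation (non-strict paths)

The temporal graph `cyc` is the cycle with nine vertices whose edges carry, in this order, the label
sets `{2}, {1, 4}, {3}, {2}, {1, 4}, {3}, {2}, {1, 4}, {3}`. No directed temporal graph in which every
arc has exactly one label has (for non-strict temporal paths) an isomorphic reachability graph.

The definitions (in `Pool.Agent.R545.Tg.Defs` and `Pool.Agent.R545.Tg.Cycle`):
* `UTemporal V`, `DTemporal W`: undirected / directed temporal graphs (edges or arcs with a set of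
  natural numbers as labels), `DTemporal.Simple`: every arc has exactly one label;
* `TPath A u v t`: there is a temporal path from `u` to `v` with non-decreasing labels and last
  label `t`; `ReachArc A u v`: `u ≠ v` and there is such a path for some `t`;
* `ReachEquivalent G H`: the reachability graphs are isomorphic.
-/

namespace Pool.Agent.Results.MP_b998f6_co.NineCycle

open Pool.Agent.R545.Tg

/-- **Q1 has a negative answer.** -/
theorem result :
    (∃ G : UTemporal (Fin 3 × Fin 3), ∀ (W : Type) (H : DTemporal W), H.Simple →
      ¬ ReachEquivalent G H) ∧
    ∀ (W : Type) (H : DTemporal W), H.Simple → ¬ ReachEquivalent cyc H :=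
  ⟨⟨cyc, cyc_no_simple⟩, cyc_no_simple⟩

end Pool.Agent.Results.MP_b998f6_co.NineCycle
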